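import Mathlib
import Pool.Agent.H21.CliffCirc2

set_option autoImplicit false

open Complex Matrix

namespace Pool.Agent.Results.MP_782c7c_an.OneManifold

/-- The Clifford spectrum: the real `l` for which `∑ j, (A j - l j • 1) ⊗ γ j` is not invertible. -/
def cliffSpec {d n r : ℕ} (A : Fin d → Matrix (Fin n) (Fin n) ℂ)
    (γ : Fin d → Matrix (Fin r) (Fin r) ℂ) : Set (Fin d → ℝ) :=
  {l | ¬ IsUnit (∑ j, Matrix.kroneckerMap (· * ·)
    (A j - ((l j : ℝ) : ℂ) • (1 : Matrix (Fin n) (Fin n) ℂ)) (γ j))}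

open Pool.Agent.H21.CliffCirc

lemma mem_iff (l : Fin 3 → ℝ) : l ∈ cliffSpec AA GG ↔
    (l 2 = 0 ∧ l 0 ^ 2 + l 1 ^ 2 = 16) ∨ (l 0 = 0 ∧ l 1 ^ 2 + l 2 ^ 2 = 64) := by
  rw [← spec]
  show ¬ IsUnit (LL l) ↔ _
  rw [Matrix.isUnit_iff_isUnit_det, isUnit_iff_ne_zero, not_not]

lemma c1 (σ : ℝ) (hσ : σ ^ 2 = 1) (p : cliffSpec AA GG) (hp : σ * p.1 0 < 4)
    (hq : p.1 1 ^ 2 + p.1 2 ^ 2 < 30) :
    ∃ U : Set (cliffSpec AA GG), IsOpen U ∧ p ∈ U ∧ Nonempty (U ≃ₜ ℝ) := by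
  refine chart _ {q | σ * q 0 < 4 ∧ q 1 ^ 2 + q 2 ^ 2 < 30} ?_
    (fun t => ![σ * (4 * (t ^ 2 - 1) / (t ^ 2 + 1)), 8 * t / (t ^ 2 + 1), 0])
    (fun q => q 1 / (4 - σ * q 0)) ?_ ?_ ?_ ?_ ?_ p ⟨hp, hq⟩
  · refine IsOpen.and (isOpen_lt ?_ ?_) (isOpen_lt ?_ ?_) <;> fun_prop
  · refine continuous_pi fun i => ?_
    fin_cases i
    · simp only [Fin.zero_eta, Matrix.cons_val_zero]
      fun_prop (disch := intro t; positivity)
    · simp only [Fin.mk_one, Matrix.cons_val_one, Matrix.cons_val_zero]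
      fun_prop (disch := intro t; positivity)
    · simp only [Fin.reduceFinMk, Matrix.cons_val]
      fun_prop
  · refine ContinuousOn.div (by fun_prop) (by fun_prop) fun q hq => ?_
    have := hq.1
    linarith
  · intro t
    have ht : 0 < t ^ 2 + 1 := by positivity
    have e : (σ * (4 * (t ^ 2 - 1) / (t ^ 2 + 1))) ^ 2 + (8 * t / (t ^ 2 + 1)) ^ 2 = 16 := by
      rw [mul_pow, hσ]; field_simp; ring
    refine ⟨(mem_iff _).2 (Or.inl ⟨by simp, by simpa using e⟩), ?_, ?_⟩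
    · simp only [Matrix.cons_val_zero]
      rw [← mul_assoc, ← sq, hσ, one_mul, div_lt_iff₀ ht]; linarith
    · simp only [Matrix.cons_val]
      nlinarith [sq_nonneg (σ * (4 * (t ^ 2 - 1) / (t ^ 2 + 1)))]
  · intro t
    have ht : 0 < t ^ 2 + 1 := by positivity
    simp only [Matrix.cons_val]
    rw [← mul_assoc, ← sq, hσ, one_mul]
    have : 4 - 4 * (t ^ 2 - 1) / (t ^ 2 + 1) = 8 / (t ^ 2 + 1) := by field_simp; ring
    rw [this]; field_simp
  · intro q hq ⟨h1, h2⟩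
    rcases (mem_iff _).1 hq with ⟨a, b⟩ | ⟨a, b⟩
    · have hd : 0 < 4 - σ * q 0 := by linarith
      have e : (q 1 / (4 - σ * q 0)) ^ 2 + 1 = 8 / (4 - σ * q 0) := by
        field_simp; linear_combination b + (q 0) ^ 2 * hσ
      have e' : (q 1 / (4 - σ * q 0)) ^ 2 - 1 = 2 * (σ * q 0) / (4 - σ * q 0) := by
        field_simp; linear_combination b + (q 0) ^ 2 * hσ
      funext i
      fin_cases i
      · simp only [Fin.zero_eta, Matrix.cons_val_zero]
        rw [e, e']; field_simp; linear_combination (8 * q 0) * hσ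
      · simp only [Fin.mk_one, Matrix.cons_val_one, Matrix.cons_val_zero]
        rw [e]; field_simp
      · simp only [Fin.reduceFinMk, Matrix.cons_val]
        exact a.symm
    · linarith

lemma c2 (σ : ℝ) (hσ : σ ^ 2 = 1) (p : cliffSpec AA GG) (hp : σ * p.1 1 < 8)
    (hq : 30 < p.1 1 ^ 2 + p.1 2 ^ 2) :
    ∃ U : Set (cliffSpec AA GG), IsOpen U ∧ p ∈ U ∧ Nonempty (U ≃ₜ ℝ) := by
  refine chart _ {q | σ * q 1 < 8 ∧ 30 < q 1 ^ 2 + q 2 ^ 2} ?_
    (fun t => ![0, σ * (8 * (t ^ 2 - 1) / (t ^ 2 + 1)), 16 * t / (t ^ 2 + 1)])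
    (fun q => q 2 / (8 - σ * q 1)) ?_ ?_ ?_ ?_ ?_ p ⟨hp, hq⟩
  · refine IsOpen.and (isOpen_lt ?_ ?_) (isOpen_lt ?_ ?_) <;> fun_prop
  · refine continuous_pi fun i => ?_
    fin_cases i
    · simp only [Fin.zero_eta, Matrix.cons_val_zero]
      fun_prop
    · simp only [Fin.mk_one, Matrix.cons_val_one, Matrix.cons_val_zero]
      fun_prop (disch := intro t; positivity)
    · simp only [Fin.reduceFinMk, Matrix.cons_val]
      fun_prop (disch := intro t; positivity)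
  · refine ContinuousOn.div (by fun_prop) (by fun_prop) fun q hq => ?_
    have := hq.1
    linarith
  · intro t
    have ht : 0 < t ^ 2 + 1 := by positivity
    have e : (σ * (8 * (t ^ 2 - 1) / (t ^ 2 + 1))) ^ 2 + (16 * t / (t ^ 2 + 1)) ^ 2 = 64 := by
      rw [mul_pow, hσ]; field_simp; ring
    refine ⟨(mem_iff _).2 (Or.inr ⟨by simp, by simpa using e⟩), ?_, ?_⟩
    · simp only [Matrix.cons_val]
      rw [← mul_assoc, ← sq, hσ, one_mul, div_lt_iff₀ ht]; linarith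
    · simp only [Matrix.cons_val]
      linarith
  · intro t
    have ht : 0 < t ^ 2 + 1 := by positivity
    simp only [Matrix.cons_val]
    rw [← mul_assoc, ← sq, hσ, one_mul]
    have : 8 - 8 * (t ^ 2 - 1) / (t ^ 2 + 1) = 16 / (t ^ 2 + 1) := by field_simp; ring
    rw [this]; field_simp
  · intro q hq ⟨h1, h2⟩
    rcases (mem_iff _).1 hq with ⟨a, b⟩ | ⟨a, b⟩
    · rw [a] at h2
      nlinarith [sq_nonneg (q 0)]
    · have hd : 0 < 8 - σ * q 1 := by linarith
      have e : (q 2 / (8 - σ * q 1)) ^ 2 + 1 = 16 / (8 - σ * q 1) := by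
        field_simp; linear_combination b + (q 1) ^ 2 * hσ
      have e' : (q 2 / (8 - σ * q 1)) ^ 2 - 1 = 2 * (σ * q 1) / (8 - σ * q 1) := by
        field_simp; linear_combination b + (q 1) ^ 2 * hσ
      funext i
      fin_cases i
      · simp only [Fin.zero_eta, Matrix.cons_val_zero]
        exact a.symm
      · simp only [Fin.mk_one, Matrix.cons_val_one, Matrix.cons_val_zero]
        rw [e, e']; field_simp; linear_combination (16 * q 1) * hσ
      · simp only [Fin.reduceFinMk, Matrix.cons_val]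
        rw [e]; field_simp

theorem result : ∃ (d n r : ℕ), 1 ≤ d ∧ 1 ≤ n ∧ 1 ≤ r ∧
    ∃ (A : Fin d → Matrix (Fin n) (Fin n) ℂ) (γ : Fin d → Matrix (Fin r) (Fin r) ℂ),
      (∀ j, (A j).IsHermitian) ∧ (∀ j, (γ j).IsHermitian) ∧ (∀ j, γ j * γ j = 1) ∧
      (∀ j k, j ≠ k → γ j * γ k = -(γ k * γ j)) ∧
      (cliffSpec A γ).Nonempty ∧
      ∀ p : cliffSpec A γ, ∃ U : Set (cliffSpec A γ), IsOpen U ∧ p ∈ U ∧ Nonempty (U ≃ₜ ℝ) := by
  refine ⟨3, 8, 2, by norm_num, by norm_num, by norm_num, AA, GG, ?_, ?_, ?_, ?_, ?_, ?_⟩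
  · intro j
    fin_cases j <;> ext a b <;> fin_cases a <;> fin_cases b <;> simp [AA, conjTranspose_apply]
  · intro j
    fin_cases j <;> ext a b <;> fin_cases a <;> fin_cases b <;> simp [GG, conjTranspose_apply]
  · intro j
    fin_cases j <;> ext a b <;> fin_cases a <;> fin_cases b <;>
      simp [GG, Matrix.mul_apply, Fin.sum_univ_two]
  · intro j k hjk
    fin_cases j <;> fin_cases k <;> first | exact absurd rfl hjk |
      (ext a b; fin_cases a <;> fin_cases b <;> simp [GG, Matrix.mul_apply, Fin.sum_univ_two])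
  · exact ⟨![4, 0, 0], (mem_iff _).2 (Or.inl ⟨by simp, by simp; norm_num⟩)⟩
  · intro p
    rcases (mem_iff _).1 p.2 with ⟨a, b⟩ | ⟨a, b⟩
    · have hq : p.1 1 ^ 2 + p.1 2 ^ 2 < 30 := by rw [a]; nlinarith [sq_nonneg (p.1 0)]
      rcases le_total (p.1 0) 0 with h | h
      · exact c1 1 (by norm_num) p (by linarith) hq
      · exact c1 (-1) (by norm_num) p (by linarith) hq
    · have hq : 30 < p.1 1 ^ 2 + p.1 2 ^ 2 := by linarith
      rcases le_total (p.1 1) 0 with h | h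
      · exact c2 1 (by norm_num) p (by linarith) hq
      · exact c2 (-1) (by norm_num) p (by linarith) hq

end Pool.Agent.Results.MP_782c7c_an.OneManifold
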